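import Pool.Agent.Conf14.Bd6

/-!
# Irreducible representations of pure braid groups live on boundedly many strands

An irreducible complex representation of dimension `r` of the pure braid group `P_n` has at most
`4 (r - 1)` active strands: there is a set `T` of at most `4 (r - 1)` strands such that `A i j`
acts by a scalar as soon as `i` or `j` is not in `T`.
-/

namespace Pool.Agent.Conf14Variants.BoundedStrands

open Pool.Agent.Conf14

/-- Let `ρ` be an irreducible representation of the pure braid group `P_n` on a complex vector
space `V` of finite dimension `r`.  There is a set `T` of at most `4 (r - 1)` strands such that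
`ρ (A i j)` is a scalar whenever `i` or `j` is not in `T`. -/
theorem result {n : ℕ} {V : Type*} [AddCommGroup V] [Module ℂ V] [FiniteDimensional ℂ V]
    (ρ : Representation ℂ (PureBraid n) V) [ρ.IsIrreducible] :
    ∃ T : Finset (Fin n), T.card + 4 ≤ 4 * Module.finrank ℂ V ∧
      ∀ (i j : Fin n) (h : i < j), (i ∉ T ∨ j ∉ T) →
        ∃ c : ℂ, ρ (A i j h) = c • LinearMap.id := by
  have hnt : Nontrivial V := by
    by_contra hcon
    have hs : Subsingleton V := not_nontrivial_iff_subsingleton.mp hcon
    apply bot_ne_top (α := Subrepresentation ρ)
    apply Subrepresentation.toSubmodule_injective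
    exact Subsingleton.elim _ _
  obtain ⟨T, hT, h⟩ := bound_main (toEq ρ) (fun W hW => irr_sub ρ W hW)
  refine ⟨T, hT, fun i j hij hor => ?_⟩
  obtain ⟨c, hc⟩ := h i j hij.ne hor
  refine ⟨c, LinearMap.ext fun v => ?_⟩
  rw [← B_lt hij]
  exact hc v

end Pool.Agent.Conf14Variants.BoundedStrands
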