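import Pool.Agent.PFk.Few

/-!
# Local systems of prime rank on configuration spaces come from few points

Every irreducible complex representation of prime rank `r` of a pure braid group (any number of
strands) is, up to a character, a subrepresentation of the first cohomology of cyclic covers of
the line, or pulled back from the moduli space of at most `r + 1` points on the sphere.
-/

namespace Pool.Agent.Conf14Variants.FewPoints

open Pool.Agent.Conf14 Pool.Agent.PB3 Pool.Agent.PFk

/-- Let `ρ` be an irreducible representation of rank `r` of the pure braid group on `n` strands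
such that `r` is prime, or the conjugates of each generator act as scalars or without common
invariant subspace.  Then `ρ` is, up to a character, a subrepresentation of the first cohomology
of a cyclic cover, or the pullback of a representation `σ` of the pure braid group on `m` strands
under a forgetful map, where `m ≤ r`, or `m = r + 1` and `σ` comes from the moduli space of `m`
points on the sphere.  If the eigenvalues of all `ρ (A i j)` are roots of unity then the character
has finite order. -/
theorem result {n : ℕ} {V : Type*} [AddCommGroup V] [Module ℂ V] [FiniteDimensional ℂ V]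
    (ρ : Representation ℂ (PureBraid n) V) [ρ.IsIrreducible]
    (h : (Module.finrank ℂ V).Prime ∨ ∀ (i j : Fin n) (hij : i < j),
      (∃ c : ℂ, ρ (A i j hij) = c • LinearMap.id) ∨
      ∀ W : Submodule ℂ V, (∀ g, ∀ x ∈ W, ρ (g * A i j hij * g⁻¹) x ∈ W) → W = ⊥ ∨ W = ⊤) :
    InCyclicCovers ρ ∨ ∃ (m : ℕ) (e : Fin m ↪o Fin n) (F : PureBraid n →* PureBraid m)
      (σ : Representation ℂ (PureBraid m) V) (χ : PureBraid n →* ℂˣ),
      (m ≤ Module.finrank ℂ V ∨ m = Module.finrank ℂ V + 1 ∧ Spherical σ) ∧ IsForgetful e F ∧
      (∀ g, ρ g = (χ g : ℂ) • σ (F g)) ∧
      (RootEig ρ → ∃ N : ℕ, 0 < N ∧ ∀ g, χ g ^ N = 1) :=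
  few_points ρ h

end Pool.Agent.Conf14Variants.FewPoints
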