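import Pool.Agent.PB3.StabMain

/-!
# Local systems of given rank on all configuration spaces

Every irreducible complex representation of rank `r` of a pure braid group is, up to a character,
pulled back from the pure braid group on at most `4 * (r - 1)` of the strands.
-/

namespace Pool.Agent.Conf14Variants.FewStrands

open Pool.Agent.Conf14 Pool.Agent.PB3

/-- Let `ρ` be an irreducible representation of rank `r` of the pure braid group on `n` strands.
Then there are at most `4 * (r - 1)` strands (the image of `e`), such that `ρ` is, up to a
character `χ`, the pullback of a representation `σ` of the pure braid group on these strands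
under the homomorphism `F` which forgets the other strands.  If the eigenvalues of all
`ρ (A i j)` are roots of unity then `χ` has finite order. -/
theorem result {n : ℕ} {V : Type*} [AddCommGroup V] [Module ℂ V] [FiniteDimensional ℂ V]
    (ρ : Representation ℂ (PureBraid n) V) [ρ.IsIrreducible] :
    ∃ (m : ℕ) (e : Fin m ↪o Fin n) (F : PureBraid n →* PureBraid m)
      (σ : Representation ℂ (PureBraid m) V) (χ : PureBraid n →* ℂˣ),
      m ≤ 4 * (Module.finrank ℂ V - 1) ∧ IsForgetful e F ∧
      (∀ g, ρ g = (χ g : ℂ) • σ (F g)) ∧
      (RootEig ρ → ∃ N : ℕ, 0 < N ∧ ∀ g, χ g ^ N = 1) :=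
  few_strands ρ

end Pool.Agent.Conf14Variants.FewStrands
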