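import Pool.Agent.PB3.Stmt

/-!
# Rank three local systems on configuration spaces

Every irreducible complex representation of rank three of the pure braid group is, up to a
character, a subrepresentation of the first cohomology of cyclic covers of the line, or pulled
back from the line minus three points by forgetting all strands but three or by the cross ratio
of four strands.
-/

namespace Pool.Agent.Conf14Variants.RankThree

open Pool.Agent.Conf14 Pool.Agent.PB3

/-- An irreducible representation of rank three of the pure braid group is, up to a character,
a subrepresentation of the first cohomology of a cyclic cover, or the pullback of a
representation of the fundamental group of the line minus three points under a forgetful map or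
a cross ratio map. -/
theorem result {n : ℕ} {V : Type*} [AddCommGroup V] [Module ℂ V]
    (ρ : Representation ℂ (PureBraid n) V) [ρ.IsIrreducible] (h : Module.finrank ℂ V = 3) :
    InCyclicCovers ρ ∨ FromLine ρ :=
  rank_three ρ h

end Pool.Agent.Conf14Variants.RankThree
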