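import Pool.Agent.Conf14.One

/-!
# Geometricity of the reflection type local systems on configuration spaces

Every irreducible complex representation of the pure braid group for which the generators `A i j`
of one strand act as scalars plus maps of rank at most one, not all as scalars (in rank two: every
irreducible representation) is, up to a character, a subrepresentation of the first cohomology of
the cyclic covers `y ^ N = ∏ (x - z i) ^ (a i)`; if the local monodromies have roots of unity as
eigenvalues then the covers are finite and the character has finite order.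
-/

namespace Pool.Agent.Conf14Variants.ReflectionType

open Pool.Agent.Conf14

/-- Cohomology classes of the compactified cyclic cover given by `t`: the homomorphisms
`ker t → ℂ` which vanish on the loops around the punctures. -/
def IsH1 {n : ℕ} (t : Fin n → ℂˣ) (f : ker t → ℂ) : Prop :=
  (∀ g h, f (g * h) = f g + f h) ∧ ∀ g : ker t, Peripheral (g : FreeGroup (Fin n)) → f g = 0

/-- Let `ρ` be an irreducible representation of the pure braid group `P_n` on `V` of finite
dimension such that `dim V ≤ 2`, or there is a strand `s` such that some `ρ (A i j)` with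
`s ∈ {i, j}` is not a scalar and every `ρ (A i j)` with `s ∈ {i, j}` is a scalar plus a map of
rank at most one (nothing is assumed on the other generators).
If `dim V ≥ 2` then there are `t : Fin n → ℂˣ`, a character `χ` and an injective linear map `ι`
from `V` to the functions on `ker t` whose values are classes of the first cohomology of the
compactified cyclic cover given by `t`, equivariant up to `χ`: the class of `ρ β x` is `χ β` times
the transform by `β` of the class of `x`.  If moreover the eigenvalues of all `ρ (A i j)` are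
roots of unity then `t` and `χ` have finite order.  If `dim V = 1` and the eigenvalues of all
`ρ (A i j)` are roots of unity then `ρ` has finite order. -/
theorem result {n : ℕ} {V : Type*} [AddCommGroup V] [Module ℂ V] [FiniteDimensional ℂ V]
    (ρ : Representation ℂ (PureBraid n) V) [ρ.IsIrreducible]
    (hρ : Module.finrank ℂ V ≤ 2 ∨ ∃ s : Fin n,
      (∃ (i j : Fin n) (h : i < j), (i = s ∨ j = s) ∧ ∀ c : ℂ, ρ (A i j h) ≠ c • LinearMap.id) ∧
      ∀ (i j : Fin n) (h : i < j), (i = s ∨ j = s) → ∃ c : ℂ,
        Module.finrank ℂ (LinearMap.range (ρ (A i j h) - c • LinearMap.id)) ≤ 1) :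
    (2 ≤ Module.finrank ℂ V →
      ∃ (t : Fin n → ℂˣ) (χ : PureBraid n →* ℂˣ) (ι : V →ₗ[ℂ] (ker t → ℂ)),
        Function.Injective ι ∧ (∀ x, IsH1 t (ι x)) ∧
        (∀ (β : PureBraid n) (x : V) (u : ker t), ∃ h : β.1 u.1 ∈ ker t,
          ι (ρ β x) ⟨β.1 u.1, h⟩ = χ β * ι x u) ∧
        ((∀ (i j : Fin n) (h : i < j) (μ : ℂ), Module.End.HasEigenvalue (ρ (A i j h)) μ →
            ∃ k : ℕ, 0 < k ∧ μ ^ k = 1) →
          ∃ N : ℕ, 0 < N ∧ (∀ i, t i ^ N = 1) ∧ ∀ g, χ g ^ N = 1)) ∧
    (Module.finrank ℂ V = 1 →
      (∀ (i j : Fin n) (h : i < j) (μ : ℂ), Module.End.HasEigenvalue (ρ (A i j h)) μ →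
        ∃ k : ℕ, 0 < k ∧ μ ^ k = 1) →
      ∃ N : ℕ, 0 < N ∧ ∀ g, ρ g ^ N = 1) := by
  refine ⟨fun h2 => ?_, fun h1 hroot => main_one ρ h1 hroot⟩
  have hr : ∀ (i j : Fin n) (h : i < j), ∃ c : ℂ,
      Module.finrank ℂ (LinearMap.range (ρ (A i j h) - c • LinearMap.id)) ≤ 1 := by
    by_cases h3 : Module.finrank ℂ V ≤ 2
    · intro i j hij
      exact rank_two (le_antisymm h3 h2) _
    · obtain ⟨s, ⟨i0, j0, h0, hs0, hns⟩, hr⟩ := hρ.resolve_left h3
      have key : ∀ i j (h : i < j), (∃ c : ℂ, Module.finrank ℂ (LinearMap.range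
          (ρ (A i j h) - c • LinearMap.id)) ≤ 1) ↔ RkOne (toEq ρ (B i j)) := by
        intro i j h
        rw [B_lt h]
        exact Iff.rfl
      have hall : ∀ k l : Fin n, k ≠ l → RkOne (toEq ρ (B k l)) := fun k l hkl =>
        one_strand (R := toEq ρ) (fun W hW => irr_sub ρ W hW) (by omega) (s := s)
        (by
          have hsc : ¬ IsSc (toEq ρ (B i0 j0)) := by
            rintro ⟨c, hc⟩
            apply hns c
            ext x
            have := hc x
            rw [B_lt h0] at this
            exact this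
          rcases hs0 with he | he
          · exact ⟨j0, by rw [← he]; exact h0.ne', by rw [← he]; exact hsc⟩
          · exact ⟨i0, by rw [← he]; exact h0.ne, by rw [← he, B_symm]; exact hsc⟩)
        (by
          intro j hj
          rcases lt_or_gt_of_ne hj with hlt | hlt
          · rw [B_symm, ← key j s hlt]
            exact hr j s hlt (Or.inr rfl)
          · rw [← key s j hlt]
            exact hr s j hlt (Or.inl rfl)) hkl
      intro i j h
      exact (key i j h).mpr (hall i j h.ne)
  obtain ⟨t, χ, ι, h1, h3, h4⟩ := main_two ρ h2 hr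
  refine ⟨t, χ, (H1 t).subtype ∘ₗ ι, ?_, fun x => (ι x).2, fun β x u => ?_, h4⟩
  · intro x y hxy
    exact h1 (Subtype.ext hxy)
  · refine ⟨(good_of_mem β.2).mem_ker u.2, ?_⟩
    have h5 := congrArg (fun f : H1 t => (f : ker t → ℂ)
      ⟨β.1 u.1, (good_of_mem β.2).mem_ker u.2⟩) (h3 β x)
    have h6 : (cohRep t β (ι x) : ker t → ℂ) ⟨β.1 u.1, (good_of_mem β.2).mem_ker u.2⟩ =
        (ι x : ker t → ℂ) u := by
      show (ι x : ker t → ℂ) ⟨((β⁻¹ : PureBraid n) : MulAut (FreeGroup (Fin n))) (β.1 u.1), _⟩ = _
      exact congrArg (ι x : ker t → ℂ) (Subtype.ext (MulAut.inv_apply_self _ β.1 u.1))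
    show (ι (ρ β x) : ker t → ℂ) _ = _
    rw [show (ι (ρ β x) : ker t → ℂ) ⟨β.1 u.1, (good_of_mem β.2).mem_ker u.2⟩ =
      (χ β : ℂ) * (cohRep t β (ι x) : ker t → ℂ) ⟨β.1 u.1, (good_of_mem β.2).mem_ker u.2⟩ from h5,
      h6]
    rfl

end Pool.Agent.Conf14Variants.ReflectionType
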